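import Pool.Agent.Helper98.PF.Dich

/-!
Project AT (MP_b8862a_ag): the ideals of a self-adjoint irreducible Lie algebra `L` of matrices of trace zero, without a form.
The element `h` lies in an ideal or in its complement if its multiplicities are not those of a product; if they have no
common divisor, `L` is simple.
-/

set_option linter.unusedSectionVars false
set_option linter.unusedVariables false

open Matrix

namespace MH

variable {n : Type*} [Fintype n] [DecidableEq n]
variable {h : Matrix n n ℂ} {E : ℝ → Matrix n n ℂ} {Λ : Finset ℝ}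
variable {L : Submodule ℂ (Matrix n n ℂ)}

/-- The numbers `r p` are not the coefficients of a product of two Laurent polynomials with non-negative integral
coefficients and at least two terms each. -/
def IndecU (r : ℤ → ℕ) : Prop :=
  ∀ f g : ℤ →₀ ℕ, (∀ p : ℤ, r p = f.sum fun i x => x * g (p - i)) → f.support.card ≤ 1 ∨ g.support.card ≤ 1

private lemma fsU {ι : Type*} [Fintype ι] (x : ι → ℤ) (F : ℤ → ℕ → ℕ) (h0 : ∀ i, F i 0 = 0)
    (ha : ∀ i a b, F i (a + b) = F i a + F i b) :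
    (∑ i, Finsupp.single (x i) 1 : ℤ →₀ ℕ).sum F = ∑ i, F (x i) 1 := by
  classical
  rw [← Finsupp.sum_finsetSum_index h0 ha]
  refine Finset.sum_congr rfl fun i _ => ?_
  rw [Finsupp.sum_single_index (h0 _)]

private lemma apU {ι : Type*} [Fintype ι] (x : ι → ℤ) (j : ℤ) :
    (∑ i, Finsupp.single (x i) 1 : ℤ →₀ ℕ) j = (Finset.univ.filter fun i => x i = j).card := by
  classical
  rw [Finsupp.finsetSum_apply, Finset.card_filter]
  refine Finset.sum_congr rfl fun i _ => ?_
  rw [Finsupp.single_apply]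

private lemma supU {ι : Type*} [Fintype ι] (x : ι → ℤ) (h : (∑ i, Finsupp.single (x i) 1 : ℤ →₀ ℕ).support.card ≤ 1)
    (i j : ι) : x i = x j := by
  classical
  have hm : ∀ i, x i ∈ (∑ i, Finsupp.single (x i) 1 : ℤ →₀ ℕ).support := by
    intro i
    rw [Finsupp.mem_support_iff, apU]
    exact Finset.card_ne_zero.2 ⟨i, by simp⟩
  exact Finset.card_le_one.1 h _ (hm i) _ (hm j)

/-- A normalised algebra when the multiplicities are indecomposable: `h` commutes with `A` or with its commutant. -/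
theorem dichU [Nonempty n] (S : Spec h E Λ) (A : Subalgebra ℂ (Matrix n n ℂ)) (hst : ∀ a ∈ A, aᴴ ∈ A)
    (hcen : ∀ a ∈ A, (∀ b ∈ A, a * b = b * a) → ∃ c : ℂ, a = c • (1 : Matrix n n ℂ))
    (hn : ∀ a ∈ A, h * a - a * h ∈ A) (t : ℝ) (hw : ∀ μ : ℝ, E μ ≠ 0 → ∃ p : ℤ, μ = p - t)
    (hI : IndecU (fun p : ℤ => (E (p - t)).rank)) :
    (∀ a ∈ A, h * a = a * h) ∨ (∀ T : Matrix n n ℂ, (∀ a ∈ A, T * a = a * T) → T * h = h * T) := by
  classical
  obtain ⟨d, q, e, α, β, X, Y, k, hd, hq, x1, x2, hk, hm, k1, k2, ks⟩ := NI.split S.hh A hst hcen hn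
  obtain ⟨m, hmd⟩ : ∃ m : Matrix n n ℂ, m = h - k := ⟨_, rfl⟩
  rw [← hmd] at hm k2
  have hkm : h = k + m := by rw [hmd]; abel
  have hr : ∀ μ : ℝ, (E μ).rank = (Finset.univ.filter fun ik : Fin d × Fin q => α ik.1 + β ik.2 = μ).card := by
    intro μ
    have e1 : h * X = X * diagonal (fun s => ((α (e s).1 + β (e s).2 : ℝ) : ℂ)) := by
      rw [hkm, Matrix.add_mul, k1, k2, ← Matrix.mul_add, diagonal_add]
      congr 2
      funext s
      push_cast
      rfl
    rw [NI.countN S x1 x2 e1, Finset.card_filter, Finset.card_filter]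
    exact Equiv.sum_comp e (fun ik : Fin d × Fin q => if α ik.1 + β ik.2 = μ then 1 else 0)
  have cα : (∀ i j, α i = α j) → ∀ a ∈ A, h * a = a * h := by
    intro hα a ha
    have e1 : k = (α ⟨0, hd⟩ : ℂ) • (1 : Matrix n n ℂ) := by
      have e2 : diagonal (fun s => (α (e s).1 : ℂ)) = (α ⟨0, hd⟩ : ℂ) • (1 : Matrix n n ℂ) := by
        rw [← diagonal_one, ← diagonal_smul]
        congr 1
        funext s
        rw [hα (e s).1 ⟨0, hd⟩]
        simp
      calc k = k * X * Y := by rw [Matrix.mul_assoc, x2, Matrix.mul_one]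
        _ = _ := by rw [k1, e2, Matrix.mul_smul, Matrix.mul_one, Matrix.smul_mul, x2]
    rw [hkm, Matrix.add_mul, Matrix.mul_add, hm a ha, e1, Matrix.smul_mul, Matrix.mul_smul, Matrix.one_mul, Matrix.mul_one]
  have cβ : (∀ k l, β k = β l) → ∀ T : Matrix n n ℂ, (∀ a ∈ A, T * a = a * T) → T * h = h * T := by
    intro hβ T hT
    have e1 : m = (β ⟨0, hq⟩ : ℂ) • (1 : Matrix n n ℂ) := by
      have e2 : diagonal (fun s => (β (e s).2 : ℂ)) = (β ⟨0, hq⟩ : ℂ) • (1 : Matrix n n ℂ) := by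
        rw [← diagonal_one, ← diagonal_smul]
        congr 1
        funext s
        rw [hβ (e s).2 ⟨0, hq⟩]
        simp
      calc m = m * X * Y := by rw [Matrix.mul_assoc, x2, Matrix.mul_one]
        _ = _ := by rw [k2, e2, Matrix.mul_smul, Matrix.mul_one, Matrix.smul_mul, x2]
    rw [hkm, Matrix.add_mul, Matrix.mul_add, hT k hk, e1, Matrix.smul_mul, Matrix.mul_smul, Matrix.one_mul, Matrix.mul_one]
  obtain ⟨i0⟩ : Nonempty (Fin d) := ⟨⟨0, by omega⟩⟩
  obtain ⟨k0⟩ : Nonempty (Fin q) := ⟨⟨0, by omega⟩⟩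
  have hint : ∀ i k, ∃ j : ℤ, α i + β k = j - t := by
    intro i k
    apply hw
    intro h0
    have := hr (α i + β k)
    rw [h0, rank_zero] at this
    have h3 := Finset.card_eq_zero.1 this.symm
    have h4 : (i, k) ∈ (Finset.univ.filter fun j : Fin d × Fin q => α j.1 + β j.2 = α i + β k) := by simp
    rw [h3] at h4
    simp at h4
  choose z hz using hint
  obtain ⟨x, hx⟩ : ∃ x : Fin d → ℤ, ∀ i, x i = z i k0 - z i0 k0 := ⟨_, fun i => rfl⟩
  obtain ⟨y, hy⟩ : ∃ y : Fin q → ℤ, ∀ k, y k = z i0 k := ⟨_, fun i => rfl⟩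
  have hxα : ∀ i, α i = x i + α i0 := by
    intro i
    have a1 := hz i k0
    have a2 := hz i0 k0
    rw [hx]
    push_cast
    linarith
  have hyβ : ∀ k, β k = y k - t - α i0 := by
    intro k
    have a2 := hz i0 k
    rw [hy]
    linarith
  have hfin := hI (∑ i, Finsupp.single (x i) 1) (∑ k, Finsupp.single (y k) 1) (by
      intro p
      show (E (p - t)).rank = _
      rw [hr, fsU x (fun i a => a * (∑ k, Finsupp.single (y k) 1 : ℤ →₀ ℕ) (p - i)) (fun i => zero_mul _)
        (fun i a b => add_mul _ _ _), Finset.card_filter, Fintype.sum_prod_type]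
      refine Finset.sum_congr rfl fun i _ => ?_
      rw [one_mul, apU, Finset.card_filter]
      refine Finset.sum_congr rfl fun k _ => ?_
      have : (α i + β k = p - t) ↔ (y k = p - x i) := by
        rw [hxα, hyβ]
        constructor
        · intro h1
          have : (y k : ℝ) = ((p - x i : ℤ) : ℝ) := by
            push_cast
            linarith
          exact_mod_cast this
        · intro h1
          have : (y k : ℝ) = ((p - x i : ℤ) : ℝ) := by rw [h1]
          push_cast at this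
          linarith
      simp only [this])
  rcases hfin with h1 | h1
  · left
    refine cα fun i j => ?_
    rw [hxα i, hxα j, supU x h1 i j]
  · right
    refine cβ fun k l => ?_
    rw [hyβ k, hyβ l, supU y h1 k l]

/-- `L` is an irreducible complex Lie algebra of matrices of trace zero, closed under the adjoint `ᴴ`, and `h` is a self-adjoint
element of `L`. -/
structure DatU (L : Submodule ℂ (Matrix n n ℂ)) (h : Matrix n n ℂ) (E : ℝ → Matrix n n ℂ) (Λ : Finset ℝ) : Prop where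
  spec : Spec h E Λ
  br : ∀ x ∈ L, ∀ y ∈ L, x * y - y * x ∈ L
  st : ∀ x ∈ L, xᴴ ∈ L
  irr : ∀ T : Matrix n n ℂ, (∀ x ∈ L, T * x = x * T) → ∃ c : ℂ, T = c • (1 : Matrix n n ℂ)
  tr : ∀ x ∈ L, x.trace = 0
  mem : h ∈ L

namespace DatU

variable (D : DatU L h E Λ)
include D

theorem isI : IsI L L := ⟨le_rfl, D.br, D.st⟩

/-- an element of `L` that commutes with `L` is zero -/
lemma cen_zeroU {x : Matrix n n ℂ} (hx : x ∈ L) (hc : ∀ y ∈ L, x * y = y * x) : x = 0 := by
  obtain ⟨c, hc⟩ := D.irr x hc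
  have h1 := D.tr x hx
  rw [hc, trace_smul, trace_one, smul_eq_mul] at h1
  rcases mul_eq_zero.mp h1 with h2 | h2
  · rw [hc, h2, zero_smul]
  · have h3 : Fintype.card n = 0 := by exact_mod_cast h2
    have h4 := Fintype.card_eq_zero_iff.mp h3
    ext i j
    exact h4.elim i

/-- every ideal of `L` is self-adjoint -/
theorem isI_ofU {K : Submodule ℂ (Matrix n n ℂ)} (hK : K ≤ L)
    (hid : ∀ X ∈ L, ∀ Y ∈ K, X * Y - Y * X ∈ K) : IsI L K := by
  -- the complement is an ideal
  have hP : ∀ x ∈ L, ∀ w ∈ pp L K, x * w - w * x ∈ pp L K := by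
    rintro x hx w ⟨hw, hw'⟩
    refine ⟨D.br x hx w hw, fun y hy => ?_⟩
    have h2 := hw' _ (hid _ (D.st x hx) y hy)
    rw [conjTranspose_sub, conjTranspose_mul, conjTranspose_mul, conjTranspose_conjTranspose,
      sub_mul, Matrix.trace_sub] at h2
    rw [mul_sub, Matrix.trace_sub, ← mul_assoc, ← mul_assoc, Matrix.trace_mul_comm (yᴴ * w) x,
      ← mul_assoc]
    exact h2
  have hdis : ∀ x ∈ K, x ∈ pp L K → x = 0 := fun x h1 h2 => IsI.disj h1 h2
  have hcom : ∀ a ∈ K, ∀ w ∈ pp L K, a * w = w * a := by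
    intro a ha w hw
    have h1 : a * w - w * a ∈ pp L K := hP a (hK ha) w hw
    have h2 : a * w - w * a ∈ K := by
      have := K.neg_mem (hid w hw.1 a ha)
      rwa [neg_sub] at this
    exact sub_eq_zero.1 (hdis _ h2 h1)
  -- `Kᴴ ∩ P = 0`
  have hC : ∀ y ∈ pp L K, yᴴ ∈ K → y = 0 := by
    intro y hy hy'
    refine D.cen_zeroU hy.1 fun z hz => ?_
    have h1 : z * y - y * z ∈ pp L K := hP z hz y hy
    have h2 : (z * y - y * z)ᴴ ∈ K := by
      rw [conjTranspose_sub, conjTranspose_mul, conjTranspose_mul]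
      have := K.neg_mem (hid _ (D.st z hz) _ hy')
      rwa [neg_sub] at this
    have h3 : ((z * y - y * z)ᴴ * (z * y - y * z)).trace = 0 := by
      have e1 := hcom _ h2 y hy
      generalize (z * y - y * z)ᴴ = w at e1
      rw [mul_sub, Matrix.trace_sub, ← mul_assoc, ← mul_assoc, e1, Matrix.trace_mul_comm (w * z) y, mul_assoc, sub_self]
    have h4 : z * y - y * z = 0 := by
      apply eq_zero_of_trace
      rw [h3]; rfl
    exact (sub_eq_zero.1 h4).symm
  refine ⟨hK, hid, fun x hx => ?_⟩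
  have hxs : ∀ w ∈ pp L K, xᴴ * w = w * xᴴ := by
    intro w hw
    have h1 : w * xᴴ - xᴴ * w ∈ pp L K := by
      have := (pp L K).neg_mem (hP _ (D.st x (hK hx)) w hw)
      rwa [neg_sub] at this
    have h2 : (w * xᴴ - xᴴ * w)ᴴ ∈ K := by
      rw [conjTranspose_sub, conjTranspose_mul, conjTranspose_mul, conjTranspose_conjTranspose]
      have := K.neg_mem (hid _ (D.st w hw.1) x hx)
      rwa [neg_sub] at this
    exact (sub_eq_zero.1 (hC _ h1 h2)).symm
  obtain ⟨u, hu, hu'⟩ := decomp (I := K) xᴴ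
  have hy : xᴴ - u ∈ pp L K := ⟨L.sub_mem (D.st x (hK hx)) (hK hu), hu'⟩
  have h0 : xᴴ - u = 0 := by
    refine D.cen_zeroU hy.1 fun z hz => ?_
    obtain ⟨a, ha, ha'⟩ := decomp (I := K) z
    have hb : z - a ∈ pp L K := ⟨L.sub_mem hz (hK ha), ha'⟩
    have e1 := hcom a ha _ hy
    have e2 : (xᴴ - u) * (z - a) = (z - a) * (xᴴ - u) := by
      rw [sub_mul, mul_sub (z - a), hxs _ hb, hcom u hu _ hb]
    have e3 : z = a + (z - a) := by abel
    rw [e3, mul_add, add_mul, e1, e2]
  rw [sub_eq_zero.1 h0]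
  exact hu

/-- the algebra generated by an ideal has trivial centre -/
theorem adj_cenU {K : Submodule ℂ (Matrix n n ℂ)} (hK : IsI L K) {a : Matrix n n ℂ}
    (ha : a ∈ Algebra.adjoin ℂ (K : Set (Matrix n n ℂ)))
    (hc : ∀ b ∈ Algebra.adjoin ℂ (K : Set (Matrix n n ℂ)), a * b = b * a) : ∃ c : ℂ, a = c • (1 : Matrix n n ℂ) := by
  refine D.irr a fun x hx => ?_
  obtain ⟨j, hj, hj'⟩ := decomp (I := K) x
  have hk : x - j ∈ pp L K := ⟨L.sub_mem hx (hK.le hj), hj'⟩
  have e1 := hc j (Algebra.subset_adjoin hj)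
  have e2 := Dat.adj_comm (fun b hb => hK.comm D.isI hb hk) ha
  have e3 : x = j + (x - j) := by abel
  rw [e3, mul_add, add_mul, e1, e2]

omit D in
/-- the algebra generated by an ideal is normalised by `L` -/
theorem adj_nrmU {K : Submodule ℂ (Matrix n n ℂ)} (hK : IsI L K) {x a : Matrix n n ℂ} (hx : x ∈ L)
    (ha : a ∈ Algebra.adjoin ℂ (K : Set (Matrix n n ℂ))) :
    x * a - a * x ∈ Algebra.adjoin ℂ (K : Set (Matrix n n ℂ)) := by
  induction ha using Algebra.adjoin_induction with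
  | mem y hy => exact Algebra.subset_adjoin (hK.br x hx y hy)
  | algebraMap c =>
    rw [Algebra.commutes c x, sub_self]
    exact zero_mem _
  | add y z _ _ hy hz =>
    have e1 : x * (y + z) - (y + z) * x = (x * y - y * x) + (x * z - z * x) := by noncomm_ring
    rw [e1]
    exact add_mem hy hz
  | mul y z hy' hz' hy hz =>
    have e1 : x * (y * z) - y * z * x = (x * y - y * x) * z + y * (x * z - z * x) := by noncomm_ring
    rw [e1]
    exact add_mem (mul_mem hy hz') (mul_mem hy' hz)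

/-- `h` lies in an ideal or in its complement -/
theorem h_mem_orU [Nonempty n] (t : ℝ) (hw : ∀ μ : ℝ, E μ ≠ 0 → ∃ p : ℤ, μ = p - t)
    (hI : IndecU (fun p : ℤ => (E (p - t)).rank)) {K : Submodule ℂ (Matrix n n ℂ)} (hK : IsI L K) :
    h ∈ K ∨ h ∈ pp L K := by
  classical
  obtain ⟨k, hk, hk'⟩ := decomp (I := K) h
  have hp : h - k ∈ pp L K := ⟨L.sub_mem D.mem (hK.le hk), hk'⟩
  have key := dichU D.spec (Algebra.adjoin ℂ (K : Set (Matrix n n ℂ))) (fun a ha => Dat.adj_star hK.st ha)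
    (fun a ha hc => D.adj_cenU hK ha hc) (fun a ha => adj_nrmU hK D.mem ha) t hw hI
  rcases key with h1 | h1
  · right
    have hk0 : k = 0 := by
      refine D.cen_zeroU (hK.le hk) fun z hz => ?_
      obtain ⟨a, ha, ha'⟩ := decomp (I := K) z
      have hb : z - a ∈ pp L K := ⟨L.sub_mem hz (hK.le ha), ha'⟩
      have e1 : k * a = a * k := by
        have e3 : h * a = a * h := h1 a (Algebra.subset_adjoin ha)
        have e4 := hK.comm D.isI ha hp
        rw [mul_sub, sub_mul, e3] at e4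
        exact (sub_right_injective e4).symm
      have e2 := hK.comm D.isI hk hb
      have e3 : z = a + (z - a) := by abel
      rw [e3, mul_add, add_mul, e1, e2]
    rwa [hk0, sub_zero] at hp
  · left
    have hk0 : h - k = 0 := by
      refine D.cen_zeroU hp.1 fun z hz => ?_
      obtain ⟨a, ha, ha'⟩ := decomp (I := K) z
      have hb : z - a ∈ pp L K := ⟨L.sub_mem hz (hK.le ha), ha'⟩
      have e2 := h1 (z - a) (fun c hc => (Dat.adj_comm (fun b hb' => hK.comm D.isI hb' hb) hc).symm)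
      have e3 := hK.comm D.isI hk hb
      have e4 := hK.comm D.isI ha hp
      have e5 : z = a + (z - a) := by abel
      have e6 : (h - k) * (z - a) = (z - a) * (h - k) := by rw [sub_mul h k, mul_sub (z - a) h k, e2, e3]
      rw [e5, mul_add, add_mul, ← e4, e6]
    rw [sub_eq_zero.1 hk0]
    exact hk

/-- a minimal ideal that contains `h` -/
theorem exists_minU : ∃ J : Submodule ℂ (Matrix n n ℂ), IsI L J ∧ h ∈ J ∧
    ∀ I : Submodule ℂ (Matrix n n ℂ), IsI L I → I ≤ J → h ∈ I → I = J := by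
  classical
  have hex : ∃ r : ℕ, ∃ J : Submodule ℂ (Matrix n n ℂ), IsI L J ∧ h ∈ J ∧ Module.finrank ℂ J = r :=
    ⟨_, L, D.isI, D.mem, rfl⟩
  obtain ⟨J, hJ, hy, hr⟩ := Nat.find_spec hex
  refine ⟨J, hJ, hy, fun I hI hle hyI => ?_⟩
  have h1 : Nat.find hex ≤ Module.finrank ℂ I := Nat.find_min' hex ⟨I, hI, hyI, rfl⟩
  exact Submodule.eq_of_le_of_finrank_le hle (by rw [hr]; exact h1)

/-- the minimal ideal that contains `h` has no proper ideals -/
theorem min_simple_orU (hor : ∀ K : Submodule ℂ (Matrix n n ℂ), IsI L K → h ∈ K ∨ h ∈ pp L K)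
    {J : Submodule ℂ (Matrix n n ℂ)} (hJ : IsI L J)
    (hh : h ∈ J) (hmin : ∀ I : Submodule ℂ (Matrix n n ℂ), IsI L I → I ≤ J → h ∈ I → I = J)
    {I : Submodule ℂ (Matrix n n ℂ)} (hle : I ≤ J) (hid : ∀ X ∈ L, ∀ Y ∈ I, X * Y - Y * X ∈ I) : I = ⊥ ∨ I = J := by
  have hI' : IsI L I := D.isI_ofU (hle.trans hJ.le) hid
  rcases hor I hI' with h1 | h1
  · right
    exact hmin I hI' hle h1
  · left
    have h2 : J ⊓ pp L I = J := hmin _ (hJ.inf (hI'.perp D.isI)) inf_le_left ⟨hh, h1⟩
    rw [eq_bot_iff]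
    intro x hx
    have h3 : x ∈ J ⊓ pp L I := by
      rw [h2]
      exact hle hx
    rw [Submodule.mem_bot]
    exact IsI.disj hx h3.2

end DatU

/-- If `h` lies in every ideal or in its complement and the multiplicities have no common divisor, `L` has no proper
ideals. -/
theorem DatU.smp_of_orU (D : DatU L h E Λ) [Nonempty n]
    (hor : ∀ K : Submodule ℂ (Matrix n n ℂ), IsI L K → h ∈ K ∨ h ∈ pp L K)
    (hd : ∀ d : ℕ, (∀ μ ∈ Λ, d ∣ (E μ).rank) → d = 1) : Smp L := by
  classical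
  obtain ⟨J, hJ, hhJ, hmin⟩ := D.exists_minU
  have hsim : ∀ I ≤ J, (∀ X ∈ L, ∀ Y ∈ I, X * Y - Y * X ∈ I) → I = ⊥ ∨ I = J := fun I hle hid =>
    D.min_simple_orU hor hJ hhJ hmin hle hid
  obtain ⟨d, q, hd1, hq1, hn, hfin, hdvd⟩ := alg_rank D.spec (Algebra.adjoin ℂ (J : Set (Matrix n n ℂ)))
    (fun a ha => Dat.adj_star hJ.st ha) (fun a ha hc => D.adj_cenU hJ ha hc) (Algebra.subset_adjoin hhJ)
  have hq : q = 1 := hd q fun μ _ => hdvd μ
  rw [hq, mul_one] at hn
  have htop : Algebra.adjoin ℂ (J : Set (Matrix n n ℂ)) = ⊤ := by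
    apply Subalgebra.toSubmodule_injective
    rw [Algebra.top_toSubmodule]
    apply Submodule.eq_top_of_finrank_eq
    rw [Module.finrank_matrix, Module.finrank_self, mul_one, hn]
    exact hfin
  have hJL : J = L := by
    refine le_antisymm hJ.le fun x hx => ?_
    obtain ⟨j, hj, hj'⟩ := decomp (I := J) x
    have hk : x - j ∈ pp L J := ⟨L.sub_mem hx (hJ.le hj), hj'⟩
    have h0 : x - j = 0 := by
      refine D.cen_zeroU hk.1 fun y _ => ?_
      have hy : y ∈ Algebra.adjoin ℂ (J : Set (Matrix n n ℂ)) := by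
        rw [htop]
        trivial
      exact (Dat.adj_comm (fun b hb => hJ.comm D.isI hb hk) hy).symm
    rw [sub_eq_zero.1 h0]
    exact hj
  intro K hK hid
  rw [← hJL] at hK
  rcases hsim K hK hid with h1 | h1
  · exact Or.inl h1
  · exact Or.inr (h1.trans hJL)

/-- If the multiplicities of `h` are indecomposable and have no common divisor, `L` has no proper ideals. -/
theorem DatU.smp_of_gcdU (D : DatU L h E Λ) [Nonempty n] (t : ℝ) (hw : ∀ μ : ℝ, E μ ≠ 0 → ∃ p : ℤ, μ = p - t)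
    (hI : IndecU (fun p : ℤ => (E (p - t)).rank)) (hd : ∀ d : ℕ, (∀ μ ∈ Λ, d ∣ (E μ).rank) → d = 1) : Smp L :=
  D.smp_of_orU (fun _ hK => D.h_mem_orU t hw hI hK) hd

end MH
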