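import Pool.Agent.Helper98.AT.Dich
import Pool.Agent.Helper14.PP.Tys
import Pool.Agent.Helper43.GP.FinalN

/-!
Project AT (MP_b8862a_ag), block H: the type of a block that need not be self-dual, from one Hodge-Tate decomposition with
indecomposable numbers, if every simple irreducible Lie algebra in this dimension is known.
-/

set_option linter.unusedSectionVars false
set_option linter.unusedVariables false

open Matrix Module GH OW

attribute [local instance 100] LieRing.ofAssociativeRing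

namespace MH

/-- The core statement in dimension `r`: a simple irreducible Lie algebra consists of all endomorphisms of trace zero, or of
all those that are skew for a symmetric or alternating form, or its diagonalisable elements have only simple eigenvalues. -/
def CoreU (r : ℕ) : Prop := ∀ (L : LieSubalgebra ℂ (Module.End ℂ (Fin r → ℂ))) [LieAlgebra.IsSimple ℂ L],
  (∀ W : Submodule ℂ (Fin r → ℂ), (∀ x ∈ L, ∀ u ∈ W, x u ∈ W) → W = ⊥ ∨ W = ⊤) →
  (∀ x : Module.End ℂ (Fin r → ℂ), LinearMap.trace ℂ _ x = 0 → x ∈ L) ∨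
  (∃ ω : LinearMap.BilinForm ℂ (Fin r → ℂ), (ω.IsSymm ∨ ω.IsAlt) ∧ ω.Nondegenerate ∧
      ∀ x : Module.End ℂ (Fin r → ℂ), x ∈ L ↔ ∀ u v, ω (x u) v = -ω u (x v)) ∨
      ∀ h ∈ L, h ≠ 0 → (⨆ c : ℂ, Module.End.eigenspace h c) = ⊤ →
        ∀ c : ℂ, finrank ℂ (Module.End.eigenspace h c) ≤ 1

/-- the abstract condition on a block that need not be self-dual -/
def CrU (r : ℕ) (h : ℤ → ℕ) : Prop := IndecU h ∧ (∃ p, 2 ≤ h p) ∧ 9 ≤ r ∧ CoreU r

section mat

variable {n : Type*} [Fintype n] [DecidableEq n]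

/-- ideals are compatible with conjugation -/
theorem Smp.of_LBB {L : Submodule ℂ (Matrix n n ℂ)} {B Bi : Matrix n n ℂ} (h1 : B * Bi = 1) (h2 : Bi * B = 1)
    (h : Smp (LBB71 L B Bi)) : Smp L := by
  intro K hK hid
  have hle : LBB71 K B Bi ≤ LBB71 L B Bi := fun x hx => hK hx
  rcases h (LBB71 K B Bi) hle (by
    intro X hX Y hY
    rw [mem_LBB71, cj_sub, ← cj_mul h1, ← cj_mul h1]
    exact hid _ (mem_LBB71.1 hX) _ (mem_LBB71.1 hY)) with h3 | h3
  · left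
    rw [eq_bot_iff]
    intro x hx
    have h4 : cj B Bi x ∈ LBB71 K B Bi := by
      rw [mem_LBB71, cj_cj h2]
      exact hx
    rw [h3, Submodule.mem_bot] at h4
    rw [Submodule.mem_bot, ← cj_cj h2 x, h4, cj_zero]
  · right
    refine le_antisymm hK fun x hx => ?_
    have h4 : cj B Bi x ∈ LBB71 L B Bi := by
      rw [mem_LBB71, cj_cj h2]
      exact hx
    rw [← h3, mem_LBB71, cj_cj h2] at h4
    exact h4

/-- **Simplicity.** -/
theorem smp_herm98 [Nonempty n] {L : Submodule ℂ (Matrix n n ℂ)} (hbr : ∀ X ∈ L, ∀ Y ∈ L, X * Y - Y * X ∈ L)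
    (hirr : ∀ W : Submodule ℂ (n → ℂ), (∀ X ∈ L, ∀ w ∈ W, X *ᵥ w ∈ W) → W = ⊥ ∨ W = ⊤)
    (htr : ∀ X ∈ L, X.trace = 0) {h : Matrix n n ℂ} (hh : h ∈ L) {E : ℝ → Matrix n n ℂ} {Λ : Finset ℝ}
    (hE : SD h E Λ) (t : ℝ) (hw : ∀ μ : ℝ, E μ ≠ 0 → ∃ p : ℤ, μ = p - t)
    (hI : IndecU (fun p : ℤ => (E (p - t)).rank)) (hd : ∀ d : ℕ, (∀ μ ∈ Λ, d ∣ (E μ).rank) → d = 1) : Smp L := by
  classical
  obtain ⟨B, Bi, h1, h2, h3, h4⟩ := exists_herm L hbr hirr htr hh hE
  have hEE : ∀ μ, E μ * E μ = E μ := fun μ => by rw [hE.mul, if_pos rfl]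
  have r1 : ∀ μ, (cj B Bi (E μ)).rank = (E μ).rank := fun μ => rank_cj h1 h2 (hEE μ)
  have D : DatU (LBB71 L B Bi) (cj B Bi h) (fun μ => cj B Bi (E μ)) Λ := by
    refine ⟨spec_of98 (sd_cj98 hE h1 h2) h3, ?_, ?_, ?_, ?_, ?_⟩
    · intro x hx y hy
      rw [mem_LBB71, cj_sub, ← cj_mul h1, ← cj_mul h1]
      exact hbr _ (mem_LBB71.1 hx) _ (mem_LBB71.1 hy)
    · intro x hx
      have e1 := h4 _ (mem_LBB71.1 hx)
      rwa [cj_cj h1] at e1
    · intro T hT
      obtain ⟨c, hc⟩ := schur98 L hirr (T := cj Bi B T) (by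
        intro X hX
        have e1 := hT (cj B Bi X) (by rw [mem_LBB71, cj_cj h2]; exact hX)
        have e2 := congrArg (cj Bi B) e1
        rwa [← cj_mul h1, ← cj_mul h1, cj_cj h2] at e2)
      refine ⟨c, ?_⟩
      have e3 := congrArg (cj B Bi) hc
      rwa [cj_cj h1, cj_smul, cj_one h1] at e3
    · intro x hx
      have e1 := htr _ (mem_LBB71.1 hx)
      rwa [trace_cj98 h1] at e1
    · rw [mem_LBB71, cj_cj h2]
      exact hh
  refine Smp.of_LBB h1 h2 (D.smp_of_gcdU t (fun μ hμ => hw μ fun h0 => hμ (by rw [h0, cj_zero])) ?_ ?_)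
  · simp only [r1]
    exact hI
  · intro d hdd
    apply hd
    intro μ hμ
    have := hdd μ hμ
    rwa [r1] at this

end mat

/-- **A simple irreducible Lie algebra of matrices, by the core statement.** -/
theorem mat_coreU {r : ℕ} (hr : 2 ≤ r) {L : Submodule ℂ (Matrix (Fin r) (Fin r) ℂ)}
    (hbr : ∀ X ∈ L, ∀ Y ∈ L, X * Y - Y * X ∈ L)
    (hirr : ∀ W : Submodule ℂ (Fin r → ℂ), (∀ X ∈ L, ∀ w ∈ W, X *ᵥ w ∈ W) → W = ⊥ ∨ W = ⊤) (hs : Smp L)
    {h : Matrix (Fin r) (Fin r) ℂ} (hh : h ∈ L) (h0 : h ≠ 0) {E : ℝ → Matrix (Fin r) (Fin r) ℂ} {Λ : Finset ℝ}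
    (hE : SD h E Λ) (h2 : ∃ μ, 2 ≤ (E μ).rank) (hc : CoreU r) :
    (∀ x : Matrix (Fin r) (Fin r) ℂ, x.trace = 0 → x ∈ L) ∨
      ∃ F Fi : Matrix (Fin r) (Fin r) ℂ, F * Fi = 1 ∧ Fi * F = 1 ∧ (Fᵀ = F ∨ Fᵀ = -F) ∧
        ∀ x, x ∈ L ↔ xᵀ * F + F * x = 0 := by
  classical
  have hcard : 2 ≤ Fintype.card (Fin r) := by rw [Fintype.card_fin]; exact hr
  have := lieOf_simple (hbr := hbr) hirr hcard hs
  have hmem : ∀ x : Matrix (Fin r) (Fin r) ℂ, Matrix.toLin' x ∈ lieOf L hbr ↔ x ∈ L := by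
    intro x
    rw [mem_lieOf, LinearMap.toMatrix'_toLin']
  rcases hc (lieOf L hbr) (lieOf_irr hirr) with h3 | ⟨ω, hω, hnd, hmω⟩ | h3
  · left
    intro x hx
    rw [← hmem]
    apply h3
    rw [Matrix.trace_toLin'_eq]
    exact hx
  · right
    obtain ⟨F, hF⟩ : ∃ F, F = LinearMap.toMatrix₂' ℂ ω := ⟨_, rfl⟩
    have hFω : Matrix.toBilin' F = ω := by
      rw [hF]
      exact Matrix.toBilin'_toMatrix' ω
    have hdet : F.det ≠ 0 := by
      rw [← hFω] at hnd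
      exact (LinearMap.BilinForm.nondegenerate_toBilin'_iff_det_ne_zero).1 hnd
    have hu : IsUnit F := (Matrix.isUnit_iff_isUnit_det F).2 hdet.isUnit
    obtain ⟨⟨F0, Fi, f1, f2⟩, hF0⟩ := hu
    change F0 = F at hF0
    subst hF0
    refine ⟨F0, Fi, f1, f2, ?_, ?_⟩
    · have e1 : ∀ i j, F0 i j = ω (Pi.single i 1) (Pi.single j 1) := by
        intro i j
        rw [hF]
        exact LinearMap.toMatrix₂'_apply _ _ _
      rcases hω with hω | hω
      · left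
        ext i j
        rw [Matrix.transpose_apply, e1, e1]
        exact hω.eq _ _
      · right
        ext i j
        rw [Matrix.transpose_apply, Matrix.neg_apply, e1, e1]
        exact (hω.neg_eq _ _).symm
    · intro x
      rw [← hmem, hmω, skew_iff98, hFω]
      simp only [Matrix.toLin'_apply]
  · exfalso
    obtain ⟨μ, hμ⟩ := h2
    have h4 : Matrix.toLin' h ≠ 0 := fun h5 => h0 ((LinearEquiv.map_eq_zero_iff _).1 h5)
    have h5 := h3 (Matrix.toLin' h) ((hmem h).2 hh) h4 hE.iSup_eig98 (μ : ℂ)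
    rw [hE.finrank_eig98] at h5
    omega

variable {n : Type*} [Fintype n] [DecidableEq n]
variable {w : ℤ} {Q : Matrix n n ℚ} {S S' : Finset ℤ} {P R : ℤ → Matrix n n ℂ} {Γ : Subgroup (GL n ℂ)}
variable {r : ℕ} {W : Matrix n (Fin r) ℂ} {V : Matrix (Fin r) n ℂ} {e : Matrix n n ℂ}

/-- spectral decomposition of the compressed Hodge-Tate element, shifted by a real number -/
theorem CR.exists_sdU {A : ℤ → Matrix (Fin r) (Fin r) ℂ} (C : CR e W V S' R A) (t : ℝ) :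
    ∃ (F : ℝ → Matrix (Fin r) (Fin r) ℂ) (Λ : Finset ℝ),
      SD (V * hR S' R * W - (t : ℂ) • (1 : Matrix (Fin r) (Fin r) ℂ)) F Λ ∧
      (∀ p : ℤ, F ((p : ℝ) - t) = A p) ∧ Λ = S'.image (fun p : ℤ => (p : ℝ) - t) ∧
      (∀ μ : ℝ, F μ ≠ 0 → ∃ p : ℤ, μ = (p : ℝ) - t) := by
  classical
  have hinj : ∀ p ∈ S', ∀ q ∈ S', (p : ℝ) - t = (q : ℝ) - t → p = q := by
    intro p _ q _ h
    have : (p : ℝ) = q := by linarith
    exact_mod_cast this
  obtain ⟨F, hF, hF1, hF0⟩ := sd_of (S := S') (F := A) (c := fun p : ℤ => (p : ℝ) - t) hinj C.mul C.sum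
  refine ⟨F, _, ?_, ?_, rfl, ?_⟩
  · have e1 : V * hR S' R * W - (t : ℂ) • (1 : Matrix (Fin r) (Fin r) ℂ) =
        ∑ p ∈ S', (((p : ℝ) - t : ℝ) : ℂ) • A p := by
      rw [C.h, ← C.sum, Finset.smul_sum, ← Finset.sum_sub_distrib]
      refine Finset.sum_congr rfl fun p _ => ?_
      rw [← sub_smul]
      congr 1
      push_cast
      ring
    rw [e1]
    exact hF
  · intro p
    by_cases hp : p ∈ S'
    · exact hF1 p hp
    · rw [C.supp p hp]
      refine hF0 _ fun h0 => hp ?_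
      obtain ⟨q, hq, hqp⟩ := Finset.mem_image.1 h0
      have h1 : (q : ℝ) = p := by linarith
      have h2 : q = p := by exact_mod_cast h1
      rwa [h2] at hq
  · intro μ hμ
    by_contra hcon
    push Not at hcon
    exact hμ (hF0 _ fun h0 => by
      obtain ⟨q, _, hqp⟩ := Finset.mem_image.1 h0
      exact hcon q hqp.symm)

/-- **The type of a block.** -/
theorem IsGalU.tyN_crU (H : IsHW w Q S P) (G : IsGalU w Q S P Γ) (he : IsBlk P e) (hVW : V * W = 1)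
    (hWV : W * V = e) (hr : 2 ≤ r) {S1 : Finset ℤ} {R1 : ℤ → Matrix n n ℂ}
    (hR1 : IsHTw w Q S1 Γ R1) (hg : ∀ d : ℕ, (∀ p, d ∣ (e * R1 p).rank) → d = 1)
    (hN : CrU r (fun p => (e * R1 p).rank)) : TyN (cpS W V (LG Γ)) := by
  classical
  have hne : Nonempty (Fin r) := ⟨⟨0, by omega⟩⟩
  have hT0 : HasHT w Q Γ e := ⟨S1, R1, hR1, hg⟩
  have hr0 : (r : ℂ) ≠ 0 := by
    have : r ≠ 0 := by omega
    exact_mod_cast this
  obtain ⟨hI, ⟨p0, hp0⟩, h9, hcore⟩ := hN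
  obtain ⟨A, C⟩ := G.exists_CR hR1 he hVW hWV
  have hAA : ∀ p, A p * A p = A p := fun p => by rw [C.mul, if_pos rfl]
  obtain ⟨t, ht⟩ : ∃ t : ℝ, (V * hR S1 R1 * W).trace = (t : ℂ) * r := by
    refine ⟨(∑ p ∈ S1, (p : ℝ) * (A p).rank) / r, ?_⟩
    rw [C.h, Matrix.trace_sum]
    push_cast
    rw [div_mul_cancel₀ _ hr0]
    refine Finset.sum_congr rfl fun p _ => ?_
    rw [Matrix.trace_smul, trace_eq_rank (hAA p), smul_eq_mul]
  obtain ⟨E, Λ, hSD, hE, hΛ, hint⟩ := C.exists_sdU t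
  obtain ⟨L0, hL0⟩ : ∃ L0 : Submodule ℂ (Matrix (Fin r) (Fin r) ℂ), ∀ y, y ∈ L0 ↔
      (y ∈ cpS W V (LG Γ) ∧ y.trace = 0) := by
    refine ⟨{ carrier := {y | y ∈ cpS W V (LG Γ) ∧ y.trace = 0}, add_mem' := ?_, zero_mem' := ?_,
              smul_mem' := ?_ }, fun y => Iff.rfl⟩
    · rintro a b ⟨ha', ha⟩ ⟨hb', hb⟩
      refine ⟨Submodule.add_mem _ ha' hb', ?_⟩
      rw [Matrix.trace_add, ha, hb, add_zero]
    · exact ⟨Submodule.zero_mem _, by simp⟩
    · rintro c a ⟨ha', ha⟩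
      refine ⟨Submodule.smul_mem _ c ha', ?_⟩
      rw [Matrix.trace_smul, ha, smul_zero]
  have hdec : ∀ y ∈ cpS W V (LG Γ), y - (y.trace / r) • (1 : Matrix (Fin r) (Fin r) ℂ) ∈ L0 := by
    intro y hy
    rw [hL0]
    refine ⟨Submodule.sub_mem _ hy (Submodule.smul_mem _ _ one_cpS), ?_⟩
    rw [Matrix.trace_sub, Matrix.trace_smul, Matrix.trace_one, Fintype.card_fin, smul_eq_mul, div_mul_cancel₀ _ hr0,
      sub_self]
  have hbr : ∀ X ∈ L0, ∀ Y ∈ L0, X * Y - Y * X ∈ L0 := by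
    intro x hx y hy
    rw [hL0] at hx hy ⊢
    refine ⟨G.cpS_br he hVW hWV x hx.1 y hy.1, ?_⟩
    rw [Matrix.trace_sub, Matrix.trace_mul_comm, sub_self]
  have hirr : ∀ U : Submodule ℂ (Fin r → ℂ), (∀ X ∈ L0, ∀ u ∈ U, X *ᵥ u ∈ U) → U = ⊥ ∨ U = ⊤ := by
    intro U hU
    refine G.cpS_irr he hVW hWV hT0 U fun y hy u hu => ?_
    have e1 := hU _ (hdec y hy) u hu
    have e2 : y *ᵥ u = (y - (y.trace / r) • (1 : Matrix (Fin r) (Fin r) ℂ)) *ᵥ u + (y.trace / r) • u := by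
      rw [Matrix.sub_mulVec, Matrix.smul_mulVec, Matrix.one_mulVec, sub_add_cancel]
    rw [e2]
    exact U.add_mem e1 (U.smul_mem _ hu)
  have htr : ∀ X ∈ L0, X.trace = 0 := fun X hX => ((hL0 X).1 hX).2
  have hh : V * hR S1 R1 * W - (t : ℂ) • (1 : Matrix (Fin r) (Fin r) ℂ) ∈ L0 := by
    have e1 := hdec (V * hR S1 R1 * W) (le_cpS ⟨_, hR1.hR_mem, rfl⟩)
    rwa [ht, mul_div_cancel_right₀ _ hr0] at e1
  have hEr : (fun p : ℤ => (E ((p : ℝ) - t)).rank) = fun p => (e * R1 p).rank := by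
    funext p
    rw [hE p, C.rank]
  have hs : Smp L0 := smp_herm98 hbr hirr htr hh hSD t hint (by rw [hEr]; exact hI) (fun d hdd => hg d fun p => by
    by_cases hp : p ∈ S1
    · have h3 := hdd _ (by rw [hΛ]; exact Finset.mem_image_of_mem _ hp)
      rwa [hE, C.rank] at h3
    · rw [hR1.supp p hp, Matrix.mul_zero, Matrix.rank_zero]
      exact dvd_zero d)
  have h0 : V * hR S1 R1 * W - (t : ℂ) • (1 : Matrix (Fin r) (Fin r) ℂ) ≠ 0 := by
    intro h0
    have h1 : ∀ p : ℤ, A p ≠ 0 → (p : ℝ) = t := by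
      intro p hp
      have h2 : ((p : ℂ) - (t : ℂ)) • A p = 0 := by
        have h3 : V * hR S1 R1 * W * A p = (p : ℂ) • A p := by
          rw [C.h, Finset.sum_mul]
          have hpS : p ∈ S1 := by
            by_contra h4
            exact hp (C.supp p h4)
          rw [Finset.sum_eq_single_of_mem p hpS]
          · rw [smul_mul_assoc, hAA]
          · intro q _ hq
            rw [smul_mul_assoc, C.mul, if_neg hq, smul_zero]
        rw [sub_smul, ← h3]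
        have h4 : V * hR S1 R1 * W = (t : ℂ) • (1 : Matrix (Fin r) (Fin r) ℂ) := sub_eq_zero.1 h0
        rw [h4, smul_mul_assoc, one_mul, sub_self]
      have h3 := (smul_eq_zero.1 h2).resolve_right hp
      have h4 : ((p : ℝ) : ℂ) = (t : ℂ) := by
        push_cast
        exact sub_eq_zero.1 h3
      exact_mod_cast h4
    have hAp : A p0 ≠ 0 := by
      intro h2
      have h3 := C.rank p0
      have h4 : 2 ≤ (e * R1 p0).rank := hp0
      rw [h2, Matrix.rank_zero] at h3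
      omega
    refine C.not_one hr hg p0 ?_
    rw [← C.sum]
    have hpS : p0 ∈ S1 := by
      by_contra h4
      exact hAp (C.supp p0 h4)
    refine (Finset.sum_eq_single_of_mem p0 hpS fun q _ hq => ?_).symm
    by_contra h2
    apply hq
    have h3 := (h1 q h2).trans (h1 p0 hAp).symm
    exact_mod_cast h3
  rcases mat_coreU hr hbr hirr hs hh h0 hSD ⟨_, by rw [hE p0, C.rank]; exact hp0⟩ hcore with hsl | ⟨F, Fi, f1, f2, hF, hm⟩
  · have h3 : ∀ x : Matrix (Fin r) (Fin r) ℂ, x.trace = 0 → x ∈ cpS W V (LG Γ) := fun x hx => ((hL0 x).1 (hsl x hx)).1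
    exact ⟨Or.inl h3, Or.inl h3⟩
  · refine ⟨Or.inr ⟨F, hF, ⟨⟨F, Fi, f1, f2⟩, rfl⟩, fun x hx => ((hL0 x).1 ((hm x).2 hx)).1, fun y hy => ?_⟩, Or.inr ?_⟩
    · refine ⟨2 * (y.trace / r), ?_⟩
      have e1 := (hm _).1 (hdec y hy)
      rw [Matrix.transpose_sub, Matrix.transpose_smul, Matrix.transpose_one, Matrix.sub_mul, Matrix.mul_sub,
        Matrix.smul_mul, Matrix.mul_smul, Matrix.one_mul, Matrix.mul_one] at e1
      rw [mul_smul, two_smul, ← sub_eq_zero, ← e1]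
      abel
    · rw [Fintype.card_fin]
      exact h9

/-- the rank of a block is the number of its coordinates, and its type on the Hodge side -/
theorem IsHW.tyBN_crU (H : IsHW w Q S P) (he : IsBlk P e) (hr2 : 2 ≤ e.rank) {σ : ℂ ≃+* ℂ}
    (hg : ∀ d : ℕ, (∀ p, d ∣ (e.map σ * P p).rank) → d = 1)
    (hN : CrU e.rank (fun p => (e.map σ * P p).rank)) : TyBN Q S P e := by
  have hf := he.aut σ
  obtain ⟨r, W, V, hVW, hWV⟩ := exists_coord48 hf.idem
  have hrr : (e.map σ).rank = r := _root_.MH.blk_rank hf hVW hWV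
  have hrk := rank_aut σ he.idem
  have hr : 2 ≤ r := by
    rw [← hrr, hrk]
    exact hr2
  have h1 := IsGalU.tyN_crU H H.isGalU_MT hf hVW hWV hr H.isHTw_id hg (by rw [← hrr, hrk]; exact hN)
  rw [H.cpS_LG_MT hVW] at h1
  have h2 : TyBN Q S P (e.map σ) := ⟨r, W, V, hVW, hWV, h1⟩
  have h3 := h2.aut σ.symm
  rwa [map_symmσ'] at h3

end MH
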