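import Pool.Agent.Helper81.PF.C2

/-!
Project AT, block L2: an irreducible module whose set of weights is symmetric is self-dual.
-/

set_option linter.unusedSectionVars false

open Module LieModule LieAlgebra LieAlgebra.IsKilling MTP.MF PF PF.CC

attribute [local instance 100] LieRing.ofAssociativeRing

namespace AT

variable {K : Type*} [Field K] [CharZero K] [IsAlgClosed K]
  {L : Type*} [LieRing L] [LieAlgebra K L] [FiniteDimensional K L] [IsKilling K L]
  {H : LieSubalgebra K L} [H.IsCartanSubalgebra]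

/-- A subspace which contains a highest weight vector and is stable under the negative root spaces contains a submodule
which contains the vector. -/
theorem stable_of_top {W : Type*} [AddCommGroup W] [Module K W] (ρ : L →ₗ⁅K⁆ Module.End K W) (b : (rootSystem H).Base)
    {v : W} {χ : H → K} (hv : ∀ h : H, ρ (h : L) v = χ h • v)
    (hpos : ∀ α : H.root, b.IsPos α → ∀ x ∈ rootSpace H α.1, ρ x v = 0) {N : Submodule K W} (hvN : v ∈ N)
    (hN : ∀ α : H.root, ¬ b.IsPos α → ∀ x ∈ rootSpace H α.1, ∀ u ∈ N, ρ x u ∈ N) :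
    ∃ M : Submodule K W, v ∈ M ∧ M ≤ N ∧ ∀ x : L, ∀ u ∈ M, ρ x u ∈ M := by
  classical
  let Neg : L → Prop := fun x => ∃ α : H.root, ¬ b.IsPos α ∧ x ∈ rootSpace H α.1
  let M : Submodule K W := sInf {U | v ∈ U ∧ ∀ x, Neg x → ∀ u ∈ U, ρ x u ∈ U}
  have hM1 : v ∈ M := by
    rw [Submodule.mem_sInf]
    rintro U ⟨hU, _⟩
    exact hU
  have hM2 : ∀ x, Neg x → ∀ u ∈ M, ρ x u ∈ M := by
    intro x hx u hu
    rw [Submodule.mem_sInf] at *
    intro U hU
    exact hU.2 x hx u (hu U hU)
  have hMle : ∀ U : Submodule K W, v ∈ U → (∀ x, Neg x → ∀ u ∈ U, ρ x u ∈ U) → M ≤ U :=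
    fun U h1 h2 => sInf_le ⟨h1, h2⟩
  have hbr : ∀ (x z : L) (u : W), ρ x (ρ z u) = ρ ⁅x, z⁆ u + ρ z (ρ x u) := by
    intro x z u
    rw [LieHom.map_lie, LieRing.of_associative_ring_bracket, LinearMap.sub_apply, Module.End.mul_apply,
      Module.End.mul_apply]
    abel
  refine ⟨M, hM1, hMle N hvN ?_, ?_⟩
  · rintro x ⟨α, hα, hx⟩ u hu
    exact hN α hα x hx u hu
  let U : Submodule K W :=
    { carrier := {u | u ∈ M ∧ ∀ x : L, ρ x u ∈ M}
      add_mem' := by
        rintro a a' ⟨h1, h2⟩ ⟨h3, h4⟩
        exact ⟨M.add_mem h1 h3, fun x => by rw [map_add]; exact M.add_mem (h2 x) (h4 x)⟩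
      zero_mem' := ⟨M.zero_mem, fun x => by rw [map_zero]; exact M.zero_mem⟩
      smul_mem' := by
        rintro k a ⟨h1, h2⟩
        exact ⟨M.smul_mem _ h1, fun x => by rw [map_smul]; exact M.smul_mem _ (h2 x)⟩ }
  have hU : M ≤ U := by
    apply hMle
    · refine ⟨hM1, fun x => ?_⟩
      let X : Submodule K L :=
        { carrier := {x | ρ x v ∈ M}
          add_mem' := by
            intro a b ha hb
            simp only [Set.mem_ofPred_eq, map_add, LinearMap.add_apply] at *
            exact add_mem ha hb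
          zero_mem' := by simp
          smul_mem' := by
            intro c a ha
            simp only [Set.mem_ofPred_eq, map_smul, LinearMap.smul_apply] at *
            exact Submodule.smul_mem _ _ ha }
      refine root_induction (U := X) (H := H) ?_ x
      intro α z hz
      change ρ z v ∈ M
      by_cases hα : α.IsZero
      · have hzH : z ∈ H := by
          rw [hα.eq] at hz
          rwa [rootSpace_zero_eq, LieSubalgebra.mem_toLieSubmodule] at hz
        have h1 : ρ z v = χ ⟨z, hzH⟩ • v := hv ⟨z, hzH⟩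
        rw [h1]
        exact Submodule.smul_mem _ _ hM1
      · have hα' : α ∈ H.root := by simpa [LieSubalgebra.root] using hα
        by_cases hp : b.IsPos ⟨α, hα'⟩
        · rw [hpos ⟨α, hα'⟩ hp z hz]
          exact M.zero_mem
        · exact hM2 z ⟨⟨α, hα'⟩, hp, hz⟩ _ hM1
    · rintro x hx u ⟨hu1, hu2⟩
      refine ⟨hM2 x hx u hu1, fun z => ?_⟩
      rw [hbr]
      exact M.add_mem (hu2 _) (hM2 x hx _ (hu2 z))
  intro x u hu
  exact (hU hu).2 x

variable {V : Type*} [AddCommGroup V] [Module K V] [FiniteDimensional K V]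
  [LieRingModule L V] [LieModule K L V] {I : Type*} [Fintype I]

/-- The action on the sum of a module and its dual. -/
noncomputable def rhoD : L →ₗ⁅K⁆ Module.End K (V × (V →ₗ[K] K)) where
  toFun x := LinearMap.prodMap (toEnd K L V x) (toEnd K L (V →ₗ[K] K) x)
  map_add' x y := by
    refine LinearMap.ext fun p => ?_
    change (⁅x + y, p.1⁆, ⁅x + y, p.2⁆) = (⁅x, p.1⁆ + ⁅y, p.1⁆, ⁅x, p.2⁆ + ⁅y, p.2⁆)
    rw [add_lie, add_lie]
  map_smul' c x := by
    refine LinearMap.ext fun p => ?_
    change (⁅c • x, p.1⁆, ⁅c • x, p.2⁆) = (c • ⁅x, p.1⁆, c • ⁅x, p.2⁆)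
    rw [smul_lie, smul_lie]
  map_lie' {x y} := by
    refine LinearMap.ext fun p => ?_
    change (⁅⁅x, y⁆, p.1⁆, ⁅⁅x, y⁆, p.2⁆) = (⁅x, ⁅y, p.1⁆⁆ - ⁅y, ⁅x, p.1⁆⁆, ⁅x, ⁅y, p.2⁆⁆ - ⁅y, ⁅x, p.2⁆⁆)
    rw [lie_lie, lie_lie]

theorem rhoD_apply (x : L) (p : V × (V →ₗ[K] K)) : rhoD x p = (⁅x, p.1⁆, ⁅x, p.2⁆) := rfl

/-- Invariant forms on an irreducible module are symmetric or alternating, and nondegenerate. -/
theorem symm_or_alt (hirr : ∀ W : Submodule K V, (∀ x : L, ∀ u ∈ W, ⁅x, u⁆ ∈ W) → W = ⊥ ∨ W = ⊤)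
    (φ : LinearMap.BilinForm K V) (h0 : φ ≠ 0) (hφ : ∀ (x : L) (u v : V), φ ⁅x, u⁆ v = - φ u ⁅x, v⁆) :
    (φ.IsSymm ∨ φ.IsAlt) ∧ φ.Nondegenerate := by
  have hφ' : ∀ (x : L) (u v : V), φ u ⁅x, v⁆ = - φ ⁅x, u⁆ v := by
    intro x u v
    rw [hφ, neg_neg]
  -- forms with a kernel vanish
  have key : ∀ ψ : LinearMap.BilinForm K V, (∀ (x : L) (u v : V), ψ ⁅x, u⁆ v = - ψ u ⁅x, v⁆) →
      ∀ u, u ≠ 0 → (∀ v, ψ u v = 0) → ψ = 0 := by
    intro ψ hψ u hu hk
    rcases hirr (LinearMap.ker ψ) (by
      intro x w hw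
      rw [LinearMap.mem_ker] at hw ⊢
      ext v
      rw [hψ, hw]
      simp) with h | h
    · exfalso
      have h1 : u ∈ LinearMap.ker ψ := by
        rw [LinearMap.mem_ker]
        ext v
        exact hk v
      rw [h, Submodule.mem_bot] at h1
      exact hu h1
    · exact LinearMap.ker_eq_top.1 h
  have hnd1 : ∀ u, (∀ v, φ u v = 0) → u = 0 := by
    intro u hu
    by_contra hne
    exact h0 (key φ hφ u hne hu)
  have hfl : LinearMap.flip φ ≠ 0 := by
    intro h
    apply h0
    ext u v
    have := congrArg (fun f : V →ₗ[K] V →ₗ[K] K => f v u) h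
    simpa using this
  have hnd2 : ∀ v, (∀ u, φ u v = 0) → v = 0 := by
    intro v hv
    by_contra hne
    refine hfl (key (LinearMap.flip φ) (fun x u w => ?_) v hne (fun u => hv u))
    rw [LinearMap.flip_apply, LinearMap.flip_apply, hφ']
  have hnd : φ.Nondegenerate := ⟨hnd1, hnd2⟩
  refine ⟨?_, hnd⟩
  -- the other form is a multiple
  obtain ⟨T, hT⟩ : ∃ T : Module.End K V, ∀ u v, φ (T u) v = φ v u := by
    have hinj : Function.Injective φ := by
      rw [← LinearMap.ker_eq_bot, LinearMap.ker_eq_bot']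
      intro u hu
      exact hnd1 u fun v => by rw [hu]; rfl
    have hbij : Function.Bijective φ :=
      ⟨hinj, (LinearMap.injective_iff_surjective_of_finrank_eq_finrank (Subspace.dual_finrank_eq).symm).1 hinj⟩
    let e := LinearEquiv.ofBijective φ hbij
    refine ⟨e.symm.toLinearMap ∘ₗ (LinearMap.flip φ), fun u v => ?_⟩
    have h1 : φ ((e.symm.toLinearMap ∘ₗ (LinearMap.flip φ)) u) = LinearMap.flip φ u := e.apply_symm_apply _
    rw [h1]
    rfl
  rcases subsingleton_or_nontrivial V with hV | hV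
  · exact Or.inr fun u => by rw [Subsingleton.elim u 0]; simp
  obtain ⟨c, hc⟩ := Module.End.exists_eigenvalue T
  obtain ⟨u0, hu0⟩ := hc.exists_hasEigenvector
  have h1 : ∀ u v, φ v u = c * φ u v := by
    have h2 : LinearMap.flip φ - c • φ = 0 := by
      refine key _ (fun x u v => ?_) u0 hu0.2 fun v => ?_
      · simp only [LinearMap.sub_apply, LinearMap.smul_apply, LinearMap.flip_apply, smul_eq_mul]
        rw [hφ' x v u, hφ x u v]
        ring
      · simp only [LinearMap.sub_apply, LinearMap.smul_apply, LinearMap.flip_apply, smul_eq_mul]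
        rw [← hT, hu0.apply_eq_smul, map_smul, LinearMap.smul_apply, smul_eq_mul, sub_self]
    intro u v
    have h3 := congrArg (fun f : V →ₗ[K] V →ₗ[K] K => f u v) h2
    simp only [LinearMap.sub_apply, LinearMap.smul_apply, LinearMap.flip_apply, smul_eq_mul,
      LinearMap.zero_apply] at h3
    exact sub_eq_zero.1 h3
  have h2 : c * c = 1 := by
    obtain ⟨u, v, huv⟩ : ∃ u v, φ u v ≠ 0 := by
      by_contra! hcon
      apply h0
      ext u v
      exact hcon u v
    have h3 := h1 v u
    rw [h1 u v] at h3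
    have h4 : (c * c - 1) * φ u v = 0 := by linear_combination -h3
    rcases mul_eq_zero.1 h4 with h5 | h5
    · exact sub_eq_zero.1 h5
    · exact absurd h5 huv
  have h3 : c = 1 ∨ c = -1 := by
    have : (c - 1) * (c + 1) = 0 := by linear_combination h2
    rcases mul_eq_zero.1 this with h | h
    · exact Or.inl (sub_eq_zero.1 h)
    · exact Or.inr (eq_neg_of_add_eq_zero_left h)
  rcases h3 with h3 | h3
  · left
    refine ⟨fun u v => ?_⟩
    rw [h1 v u, h3, one_mul]
  · right
    intro u
    have h4 := h1 u u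
    rw [h3] at h4
    have h5 : (2 : K) * φ u u = 0 := by linear_combination h4
    rcases mul_eq_zero.1 h5 with h | h
    · exact absurd h two_ne_zero
    · exact h

/-- **A symmetric set of weights: the module is self-dual.** -/
theorem exists_form (B : WB (V := V) H I) [Nonempty I]
    (hirr : ∀ W : Submodule K V, (∀ x : L, ∀ u ∈ W, ⁅x, u⁆ ∈ W) → W = ⊥ ∨ W = ⊤)
    (hneg : ∀ x ∈ PF.CC.Xw B, -x ∈ PF.CC.Xw B) :
    ∃ ω : LinearMap.BilinForm K V, (ω.IsSymm ∨ ω.IsAlt) ∧ ω.Nondegenerate ∧
      ∀ (x : L) (u v : V), ω ⁅x, u⁆ v = - ω u ⁅x, v⁆ := by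
  classical
  obtain ⟨b⟩ : Nonempty (rootSystem H).Base := (rootSystem H).nonempty_base
  -- the opposite of a weight is a weight
  have hneg' : ∀ i, ∃ j, B.w j = - B.w i := by
    intro i
    obtain ⟨j, hj⟩ := (mem_Xw B).1 (hneg _ ((mem_Xw B).2 ⟨i, rfl⟩))
    rw [← vec_neg] at hj
    have h1 := vec_inj hj
    refine ⟨j, dual_ext fun α => ?_⟩
    rw [wt_spec, h1, LinearMap.neg_apply, wt_spec]
    simp
  -- the eigenvalues of the sum of the positive coroots
  obtain ⟨c, hc⟩ : ∃ c : I → ℤ, ∀ i, B.w i (rho2 b) = (c i : K) := by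
    refine ⟨fun i => ∑ α with b.IsPos α, wt B i α, fun i => ?_⟩
    unfold rho2
    rw [map_sum]
    push_cast
    refine Finset.sum_congr rfl fun α _ => ?_
    rw [← wt_spec]
    rfl
  obtain ⟨t, -, ht⟩ := Finset.exists_max_image Finset.univ c Finset.univ_nonempty
  obtain ⟨s, hs⟩ := hneg' t
  have hcs : c s = - c t := by
    have h1 : ((c s : ℤ) : K) = ((- c t : ℤ) : K) := by
      rw [← hc, hs, LinearMap.neg_apply, hc]
      push_cast
      rfl
    exact_mod_cast h1
  have hmin : ∀ i, c s ≤ c i := by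
    intro i
    obtain ⟨j, hj⟩ := hneg' i
    have h1 : ((c j : ℤ) : K) = ((- c i : ℤ) : K) := by
      rw [← hc, hj, LinearMap.neg_apply, hc]
      push_cast
      rfl
    have h2 : c j = - c i := by exact_mod_cast h1
    have h3 := ht j (Finset.mem_univ j)
    omega
  -- coordinates of a root vector applied to a basis vector
  have hroot : ∀ (α : H.root) (x : L), x ∈ rootSpace H α.1 → ∀ i j, B.v.repr ⁅x, B.v i⁆ j ≠ 0 →
      c j = 2 * b.height α + c i := by
    intro α x hx i j hj
    have h1 := B.coord_root hx hj (rho2 b)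
    rw [hc, hc, root_rho] at h1
    have : ((c j : ℤ) : K) = ((2 * b.height α + c i : ℤ) : K) := by
      rw [h1]; push_cast; ring
    exact Int.cast_injective this
  -- the vector
  let fs : V →ₗ[K] K := B.v.coord s
  obtain ⟨M, hM1, hM2, hM3⟩ := stable_of_top (rhoD (L := L) (V := V)) b (v := (B.v t, fs))
    (χ := B.w t) (by
      intro h
      rw [rhoD_apply]
      have h1 : ⁅(h : L), fs⁆ = B.w t h • fs := by
        refine B.v.ext fun i => ?_
        rw [Module.Dual.lie_apply, B.lie_v, map_smul, LinearMap.smul_apply]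
        by_cases his : i = s
        · rw [his, hs, LinearMap.neg_apply, neg_smul, neg_neg]
        · have : fs (B.v i) = 0 := by
            simp [fs, his]
          rw [this]
          simp
      rw [h1, B.lie_v]
      rfl) (by
      intro α hα x hx
      rw [rhoD_apply]
      have hh : 0 < b.height α := hα
      have h1 : ⁅x, B.v t⁆ = 0 := by
        apply B.v.repr.injective
        rw [map_zero]
        ext j
        by_contra hj
        have h2 := hroot α x hx t j hj
        have h3 := ht j (Finset.mem_univ j)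
        omega
      have h2 : ⁅x, fs⁆ = 0 := by
        refine B.v.ext fun i => ?_
        rw [Module.Dual.lie_apply, LinearMap.zero_apply, neg_eq_zero]
        by_contra hj
        have h3 := hroot α x hx i s hj
        have h4 := hmin i
        omega
      rw [h1, h2]
      rfl) (N :=
      { carrier := {p | B.v.repr p.1 t = p.2 (B.v s)}
        add_mem' := by
          intro p q hp hq
          simp only [Set.mem_ofPred_eq, Prod.fst_add, Prod.snd_add, map_add, Finsupp.add_apply,
            LinearMap.add_apply] at *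
          rw [hp, hq]
        zero_mem' := by simp
        smul_mem' := by
          intro k p hp
          simp only [Set.mem_ofPred_eq, Prod.smul_fst, Prod.smul_snd, map_smul, Finsupp.smul_apply,
            LinearMap.smul_apply] at *
          rw [hp] }) (by
      change B.v.repr (B.v t) t = fs (B.v s)
      simp [fs]) (by
      intro α hα x hx p _
      change B.v.repr ⁅x, p.1⁆ t = ⁅x, p.2⁆ (B.v s)
      have h4 : ¬ 0 < b.height α := hα
      have h5 := b.height_ne_zero α
      have h1 : B.v.repr ⁅x, p.1⁆ t = 0 := by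
        have e : p.1 = ∑ j, B.v.repr p.1 j • B.v j := (B.v.sum_repr _).symm
        rw [e, lie_sum, map_sum, Finsupp.finsetSum_apply]
        refine Finset.sum_eq_zero fun j _ => ?_
        rw [lie_smul, map_smul, Finsupp.smul_apply, smul_eq_mul]
        by_cases hj : B.v.repr ⁅x, B.v j⁆ t = 0
        · rw [hj, mul_zero]
        · exfalso
          have h2 := hroot α x hx j t hj
          have h3 := ht j (Finset.mem_univ j)
          omega
      have h2 : ⁅x, B.v s⁆ = 0 := by
        apply B.v.repr.injective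
        rw [map_zero]
        ext j
        by_contra hj
        have h2 := hroot α x hx s j hj
        have h3 := hmin j
        omega
      rw [h1, Module.Dual.lie_apply, h2, map_zero, neg_zero])
  have hM2' : ∀ p ∈ M, B.v.repr p.1 t = p.2 (B.v s) := fun p hp => hM2 hp
  -- the first projection is onto
  have hp1 : ∀ u : V, ∃ f, (u, f) ∈ M := by
    rcases hirr (M.map (LinearMap.fst K V (V →ₗ[K] K))) (by
      rintro x _ ⟨p, hp, rfl⟩
      exact ⟨rhoD x p, hM3 x p hp, rfl⟩) with h | h
    · exfalso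
      have h1 : B.v t ∈ M.map (LinearMap.fst K V (V →ₗ[K] K)) := ⟨_, hM1, rfl⟩
      rw [h, Submodule.mem_bot] at h1
      exact B.v.ne_zero t h1
    · intro u
      have h1 : u ∈ M.map (LinearMap.fst K V (V →ₗ[K] K)) := by rw [h]; trivial
      obtain ⟨⟨u', f⟩, hf, rfl⟩ := h1
      exact ⟨f, hf⟩
  -- the first projection is one-to-one
  have hp2 : ∀ f, ((0 : V), f) ∈ M → f = 0 := by
    let Z : Submodule K V :=
      { carrier := {u | ∀ f, ((0 : V), f) ∈ M → f u = 0}
        add_mem' := by
          intro u w hu hw f hf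
          rw [map_add, hu f hf, hw f hf, add_zero]
        zero_mem' := by
          intro f _
          exact map_zero f
        smul_mem' := by
          intro k u hu f hf
          rw [map_smul, hu f hf, smul_zero] }
    have hZ : ∀ x : L, ∀ u ∈ Z, ⁅x, u⁆ ∈ Z := by
      intro x u hu f hf
      have h1 := hM3 x _ hf
      rw [rhoD_apply, lie_zero] at h1
      have h2 := hu _ h1
      rw [Module.Dual.lie_apply, neg_eq_zero] at h2
      exact h2
    rcases hirr Z hZ with h | h
    · exfalso
      -- every functional would occur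
      let Q : Submodule K (V →ₗ[K] K) := M.comap (LinearMap.inr K V (V →ₗ[K] K))
      have hQ : Q.dualCoannihilator = ⊥ := by
        rw [eq_bot_iff, ← h]
        intro u hu f hf
        rw [Submodule.mem_dualCoannihilator] at hu
        exact hu f hf
      have hQ' : Q = ⊤ := by
        have h1 := Subspace.dualCoannihilator_dualAnnihilator_eq (W := Q)
        rw [hQ, Submodule.dualAnnihilator_bot] at h1
        exact h1.symm
      have h1 : fs ∈ Q := by rw [hQ']; trivial
      have h2 : ((0 : V), fs) ∈ M := h1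
      have h3 := hM2' _ h2
      simp [fs] at h3
    · intro f hf
      ext u
      have h1 : u ∈ Z := by rw [h]; trivial
      exact h1 f hf
  choose g hg using hp1
  have hgu : ∀ u f, (u, f) ∈ M → f = g u := by
    intro u f hf
    have h1 := M.sub_mem hf (hg u)
    rw [Prod.mk_sub_mk, sub_self] at h1
    exact sub_eq_zero.1 (hp2 _ h1)
  let φ : LinearMap.BilinForm K V :=
    { toFun := g
      map_add' := by
        intro u w
        refine (hgu _ _ ?_).symm
        exact M.add_mem (hg u) (hg w)
      map_smul' := by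
        intro k u
        refine (hgu _ _ ?_).symm
        exact M.smul_mem k (hg u) }
  have hφ : ∀ (x : L) (u v : V), φ ⁅x, u⁆ v = - φ u ⁅x, v⁆ := by
    intro x u v
    have h1 := hgu _ _ (hM3 x _ (hg u))
    have h2 : φ ⁅x, u⁆ = ⁅x, g u⁆ := h1.symm
    rw [h2, Module.Dual.lie_apply]
    rfl
  have h0 : φ ≠ 0 := by
    intro h
    have h1 : g (B.v t) = fs := (hgu _ _ hM1).symm
    have h2 : φ (B.v t) = fs := h1
    rw [h] at h2
    have h3 := congrArg (fun f : V →ₗ[K] K => f (B.v s)) h2
    simp [fs] at h3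
  obtain ⟨h1, h2⟩ := symm_or_alt hirr φ h0 hφ
  exact ⟨φ, h1, h2, hφ⟩

end AT
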