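import Pool.Agent.Helper98.AT.Blk
import Pool.Agent.Helper14.AT.Main
import Pool.Agent.Helper14.PX.Fin
import Pool.Agent.Helper81.AT.Core

/-!
Project AT (MP_b8862a_ag): blocks of rank outside the exceptional set are of full type.
-/

open Matrix Module GH

attribute [local instance 100] LieRing.ofAssociativeRing

namespace MH

theorem fullU_of {E' : Set ℕ} (h : ∀ r, r ∉ E' → 9 ≤ r ∧ CoreU r) : FullU E' := by
  intro n _ _ w Q S P H Γ G e he r W V hVW hWV hr S' R hR hg h2 hI hE
  exact G.tyN_crU H he hVW hWV hr hR hg ⟨hI, h2, h r hE⟩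

/-- the core statement outside the exceptional sets -/
theorem coreU_at {r : ℕ} (h3 : r ∉ PX.Ex3) (h4 : r ∉ AT.Ex4) : CoreU r := by
  intro L _ hirr
  refine AT.core4 hirr ?_ ?_
  · rwa [Module.finrank_fintype_fun_eq_card, Fintype.card_fin]
  · rwa [Module.finrank_fintype_fun_eq_card, Fintype.card_fin]

theorem fullU_at : FullU (ExDim3 ∪ AT.Ex4) := by
  refine fullU_of fun r hr => ?_
  have h1 : r ∉ ExDim3 := fun h => hr (Or.inl h)
  have h2 : r ∉ AT.Ex4 := fun h => hr (Or.inr h)
  refine ⟨?_, coreU_at (fun h => h1 (Or.inl h)) h2⟩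
  by_contra hcon
  exact h1 (Or.inr (Or.inl (by
    change r < 9
    omega)))

end MH
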