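import Pool.Agent.Helper98.AT.Blk
import Pool.Agent.Helper14.PP.Main

/-!
Project AT (MP_b8862a_ag): the main theorem for arbitrary endomorphism algebras, from the conditions on the blocks.
-/

set_option linter.unusedSectionVars false
set_option linter.unusedVariables false

open Matrix Module GH

namespace MH

variable {n : Type*} [Fintype n] [DecidableEq n]
variable {w : ℤ} {Q : Matrix n n ℚ} {S : Finset ℤ} {P : ℤ → Matrix n n ℂ} {Γ : Subgroup (GL n ℂ)}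
variable {r : ℕ} {W : Matrix n (Fin r) ℂ} {V : Matrix (Fin r) n ℂ} {e : Matrix n n ℂ}

/-- The condition on a block of rank `r` with the numbers `h p`: it is self-dual and satisfies the condition for self-dual
blocks, or it satisfies the condition for arbitrary blocks. -/
def CrX (w : ℤ) (Q : Matrix n n ℚ) (P : ℤ → Matrix n n ℂ) (e : Matrix n n ℂ) (r : ℕ) (h : ℤ → ℕ) : Prop :=
  (SelfB Q P e ∧ CrW w r h) ∨ CrU r h

theorem SelfB.aut98 (h : SelfB Q P e) (σ : ℂ ≃+* ℂ) : SelfB Q P (e.map σ) := by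
  obtain ⟨x, hx, h0⟩ := h
  refine ⟨x.map σ, EC_aut σ hx, fun h1 => h0 ?_⟩
  have e1 : (e.map σ)ᵀ * (toC Q * x.map σ) * e.map σ = (eᵀ * (toC Q * x) * e).map σ := by
    have e2 : (toC Q).map σ = toC Q := toC_aut σ Q
    rw [Matrix.map_mul, Matrix.map_mul, Matrix.map_mul, e2, Matrix.transpose_map]
  rw [e1] at h1
  ext i j
  have h2 := congrFun (congrFun h1 i) j
  rw [Matrix.map_apply, Matrix.zero_apply] at h2
  rw [Matrix.zero_apply]
  exact (map_eq_zero σ).1 h2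

/-- the type of a block, Hodge side -/
theorem IsHW.tyBN_cr98 (H : IsHW w Q S P) (he : IsBlk P e) (hr2 : 2 ≤ e.rank) {σ : ℂ ≃+* ℂ}
    (hg : ∀ d : ℕ, (∀ p, d ∣ (e.map σ * P p).rank) → d = 1)
    (hN : CrX w Q P e e.rank (fun p => (e.map σ * P p).rank)) : TyBN Q S P e := by
  rcases hN with ⟨hs, hN⟩ | hN
  · have hf := he.aut σ
    obtain ⟨r, W, V, hVW, hWV⟩ := exists_coord48 hf.idem
    have hrr : (e.map σ).rank = r := _root_.MH.blk_rank hf hVW hWV
    have hrk := rank_aut σ he.idem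
    have hr : 2 ≤ r := by
      rw [← hrr, hrk]
      exact hr2
    have h1 := IsGalU.full_crW H H.isGalU_MT hf hVW hWV hr H.isHTw_id hg (hs.aut98 σ)
      (by rw [← hrr, hrk]; exact hN)
    rw [H.cpS_LG_MT hVW] at h1
    have h2 : TyBN Q S P (e.map σ) := ⟨r, W, V, hVW, hWV, h1⟩
    have h3 := h2.aut σ.symm
    rwa [map_symmσ'] at h3
  · exact H.tyBN_crU he hr2 hg hN

/-- the type of a block, Galois side -/
theorem IsGalU.tyN_cr98 (H : IsHW w Q S P) (G : IsGalU w Q S P Γ) (he : IsBlk P e) (hVW : V * W = 1)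
    (hWV : W * V = e) (hr : 2 ≤ r) {S1 : Finset ℤ} {R1 : ℤ → Matrix n n ℂ}
    (hR1 : IsHTw w Q S1 Γ R1) (hg : ∀ d : ℕ, (∀ p, d ∣ (e * R1 p).rank) → d = 1)
    (hN : CrX w Q P e r (fun p => (e * R1 p).rank)) : TyN (cpS W V (LG Γ)) := by
  rcases hN with ⟨hs, hN⟩ | hN
  · exact G.full_crW H he hVW hWV hr hR1 hg hs hN
  · exact G.tyN_crU H he hVW hWV hr hR1 hg hN

/-- the blocks of the Galois group are of full type -/
theorem IsGalN.tyN_cr98 (H : IsHW w Q S P) (G : IsGalN w Q S P Γ) (hT : IsTateN S P Γ)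
    (hcr : ∀ e, IsBlk P e → 2 ≤ e.rank → ∃ σ : ℂ ≃+* ℂ, CrX w Q P e e.rank (fun p => (e.map σ * P p).rank) ∧
      ∀ d : ℕ, (∀ p, d ∣ (e.map σ * P p).rank) → d = 1) :
    ∀ e, IsBlk P e → ∀ (r : ℕ) (W : Matrix n (Fin r) ℂ) (V : Matrix (Fin r) n ℂ), V * W = 1 → W * V = e →
      2 ≤ r → TyN (cpS W V (LG Γ)) := by
  intro e he r W V hVW hWV hr
  have hre : e.rank = r := _root_.MH.blk_rank he hVW hWV
  obtain ⟨σ, hN, hg⟩ := hcr e he (by omega)
  obtain ⟨S', R, hR⟩ := G.conj σ.symm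
  have hnum : (fun p => (e * R p).rank) = fun p => (e.map σ * P p).rank := by
    funext p
    rw [hR.rank e he p, H.rank_symm43 he]
  refine (G.toU H hT).tyN_cr98 H he hVW hWV hr hR.toIsHTw (fun d hd => hg d fun p => ?_) ?_
  · have h1 : (e * R p).rank = (e.map σ * P p).rank := congrFun hnum p
    rw [← h1]
    exact hd p
  · rw [hnum, ← hre]
    exact hN

/-- **The main theorem**, from the types of the blocks on the Hodge side and the conditions on the blocks. -/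
theorem gp_of_cr98 (H : IsHW w Q S P) (hty : ∀ f, IsBlk P f → 2 ≤ f.rank → TyBN Q S P f) :
    (∀ g : GL n ℂ, InD Q S P (g : Matrix n n ℂ) → g ∈ MT S P) ∧
    (∀ g ∈ MT S P, ∀ h ∈ MT S P, InD Q S P ((g * h * g⁻¹ * h⁻¹ : GL n ℂ) : Matrix n n ℂ)) ∧
    ∀ Γ : Subgroup (GL n ℂ), IsGalN w Q S P Γ →
      (∃ D : Subgroup (GL n ℚ), IsMonB Q S P D ∧ mapC D ≤ Γ) ∨
        ((∀ e, IsBlk P e → 2 ≤ e.rank → ∃ σ : ℂ ≃+* ℂ, CrX w Q P e e.rank (fun p => (e.map σ * P p).rank) ∧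
          ∀ d : ℕ, (∀ p, d ∣ (e.map σ * P p).rank) → d = 1) ∧ IsTateN S P Γ) →
      (∀ (a b : ℕ) (t : (Fin a ⊕ Fin b → n) → ℂ), IsTateTensor Γ a b t → MTfix S P a b t) ∧
        (IsAbel w Q S P Γ → ∀ (a b : ℕ) (t : (Fin a ⊕ Fin b → n) → ℂ), MTfix S P a b t → IsTateTensor Γ a b t) := by
  refine ⟨fun g hg => H.InD_MT43 hty hg, fun g hg h hh => H.comm_InD hg hh, fun Γ G hAB => ⟨?_, fun hA a b t hm =>
    G.tate_ge H hA (fun g hg => H.InD_MT43 hty hg) hm⟩⟩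
  intro a b t ht
  rcases hAB with ⟨D, M, hle⟩ | ⟨hcr, hT⟩
  · exact tate_le_mon14 H hty G M hle ht
  · exact G.tate_le H ht fun g hg => (G.toU H hT).tate_fix H (G.tyN_cr98 H hT hcr) ht hg

end MH
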